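import Pool.Agent.H31.DPD.Targets
import Pool.Agent.H22.LF.Muf
import Pool.Agent.H91.LF.Basic

/-!
# [TM] The minor arcs for the leading coefficient, Möbius function with exponents
-/

set_option autoImplicit false

open Finset Filter Topology

namespace Pool.Agent.H94.DPD

open Pool.Agent.H31.DP Pool.Agent.H31.DPD
open Pool.Agent.H91.LF (lz Bdd Mean sqw)
open Polynomial (X C)

private theorem norm_ee (x : ℝ) : ‖ee x‖ = 1 := by
  unfold ee
  rw [show (2 * Real.pi * Complex.I * x : ℂ) = ((2 * Real.pi * x : ℝ) : ℂ) * Complex.I by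
    push_cast; ring]
  exact Complex.norm_exp_ofReal_mul_I _

private theorem ee_add (x y : ℝ) : ee (x + y) = ee x * ee y := by
  unfold ee
  rw [← Complex.exp_add]
  congr 1
  push_cast
  ring

private theorem ee_zero : ee 0 = 1 := by
  unfold ee
  simp

private theorem tele (F : ℤ → ℂ) (N : ℕ) :
    ∑ n ∈ Finset.Icc 1 N, F ((n : ℤ) - 1) - ∑ n ∈ Finset.Icc 1 N, F (n : ℤ) = F 0 - F N := by
  induction N with
  | zero => simp
  | succ N ih =>
    rw [Finset.sum_Icc_succ_top (by omega), Finset.sum_Icc_succ_top (by omega)]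
    have h1 : (((N + 1 : ℕ) : ℤ) - 1) = (N : ℤ) := by push_cast; ring
    rw [h1]
    linear_combination ih

private theorem shift_le (g : ℤ → ℂ) (hg : ∀ z, ‖g z‖ ≤ 1) (N b : ℕ) :
    ‖∑ n ∈ Finset.Icc 1 N, g ((n : ℤ) - b) - ∑ n ∈ Finset.Icc 1 N, g (n : ℤ)‖ ≤ 2 * b := by
  induction b with
  | zero => simp
  | succ b ih =>
    have h1 := tele (fun z => g (z - b)) N
    have h2 : ∑ n ∈ Finset.Icc 1 N, g ((n : ℤ) - ((b + 1 : ℕ) : ℤ)) =
        ∑ n ∈ Finset.Icc 1 N, g ((n : ℤ) - 1 - b) := by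
      refine Finset.sum_congr rfl fun n _ => ?_
      congr 1
      push_cast
      ring
    rw [h2]
    have h3 : ∑ n ∈ Finset.Icc 1 N, g ((n : ℤ) - 1 - b) - ∑ n ∈ Finset.Icc 1 N, g (n : ℤ) =
        (g (0 - b) - g (N - b)) +
          (∑ n ∈ Finset.Icc 1 N, g ((n : ℤ) - b) - ∑ n ∈ Finset.Icc 1 N, g (n : ℤ)) := by
      linear_combination h1
    rw [h3]
    refine (norm_add_le _ _).trans ?_
    have h4 : ‖g (0 - b) - g (N - b)‖ ≤ 1 + 1 := (norm_sub_le _ _).trans (add_le_add (hg _) (hg _))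
    push_cast
    linarith

private theorem abs_FF_le {l : ℕ} (h : Fin l → ℕ) (p : ℕ) (y : ℤ) : |FF h p y| ≤ 1 := by
  unfold FF
  rw [Finset.abs_prod]
  exact Finset.prod_le_one (fun _ _ => abs_nonneg _) fun _ _ => Pool.Agent.H91.LF.abs_lz_le _

/-- the translation of the twisted sum -/
private theorem shift_Sg {l : ℕ} (h : Fin l → ℕ) (N b : ℕ) (P : Polynomial ℝ) :
    ‖∑ n ∈ Finset.Icc 1 N, ((FF h 1 ((n : ℤ) - b) : ℝ) : ℂ) * ee (P.eval (n : ℝ))‖ ≤
      ‖SgP h N (P.comp (X + C (b : ℝ)))‖ + 2 * b := by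
  set g : ℤ → ℂ := fun z => ((FF h 1 z : ℝ) : ℂ) * ee ((P.comp (X + C (b : ℝ))).eval (z : ℝ))
    with hg
  have hg1 : ∀ z, ‖g z‖ ≤ 1 := by
    intro z
    rw [hg]
    simp only [norm_mul, norm_ee, mul_one, Complex.norm_real, Real.norm_eq_abs]
    exact abs_FF_le h 1 z
  have h1 : ∑ n ∈ Finset.Icc 1 N, ((FF h 1 ((n : ℤ) - b) : ℝ) : ℂ) * ee (P.eval (n : ℝ)) =
      ∑ n ∈ Finset.Icc 1 N, g ((n : ℤ) - b) := by
    refine Finset.sum_congr rfl fun n _ => ?_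
    rw [hg]
    simp only [Polynomial.eval_comp, Polynomial.eval_add, Polynomial.eval_X, Polynomial.eval_C]
    congr 3
    push_cast
    ring
  have h3 : SgP h N (P.comp (X + C (b : ℝ))) = ∑ n ∈ Finset.Icc 1 N, g (n : ℤ) := by
    unfold SgP
    refine Finset.sum_congr rfl fun n _ => ?_
    rw [hg]
    simp only [Int.cast_natCast]
  rw [h1, h3]
  have h4 := shift_le g hg1 N b
  have h5 := norm_le_norm_add_norm_sub' (∑ n ∈ Finset.Icc 1 N, g ((n : ℤ) - b))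
    (∑ n ∈ Finset.Icc 1 N, g (n : ℤ))
  linarith

private theorem minor_mono {K K' N d : ℕ} {γ : ℝ} (hK : K' ≤ K) (h : MinorD K N d γ) :
    MinorD K' N d γ := by
  intro q hq1 hq2 a
  have h1 : (K' : ℝ) ≤ K := by exact_mod_cast hK
  exact h1.trans (h q hq1 (hq2.trans hK) a)

private theorem minor_shift {K N d q : ℕ} (j : ℕ) {γ : ℝ} (hq : 0 < q) (h : MinorD (K * q) N d γ) :
    MinorD K N d (γ + j / q) := by
  intro q' hq1 hq2 a
  have hq0 : (0 : ℝ) < q := by exact_mod_cast hq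
  have h1 := h (q' * q) (Nat.mul_pos hq1 hq) (Nat.mul_le_mul_right q hq2)
    (a * q - q' * j)
  have h2 : ((q' * q : ℕ) : ℝ) * γ - ((a * q - q' * j : ℤ) : ℝ) =
      ((q' : ℝ) * (γ + j / q) - a) * q := by
    push_cast
    field_simp
    ring
  rw [h2, abs_mul, abs_of_pos hq0, ← mul_assoc] at h1
  push_cast at h1
  exact le_of_mul_le_mul_right h1 hq0

/-- the polynomials of the twists -/
private theorem twist {d b q : ℕ} (hd : 0 < d) (j : ℕ) (P : Polynomial ℝ) (hP : P.natDegree ≤ d) :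
    ((P + C ((j : ℝ) / q) * X).comp (X + C (b : ℝ))).natDegree ≤ d ∧ ∃ j' : ℕ,
      ((P + C ((j : ℝ) / q) * X).comp (X + C (b : ℝ))).coeff d = P.coeff d + (j' : ℝ) / q := by
  set Q : Polynomial ℝ := P + C ((j : ℝ) / q) * X with hQ
  have hQd : Q.natDegree ≤ d := by
    refine (Polynomial.natDegree_add_le _ _).trans (max_le hP ?_)
    exact ((Polynomial.natDegree_C_mul_le _ _).trans Polynomial.natDegree_X_le).trans hd
  have hcomp : Q.comp (X + C (b : ℝ)) = Polynomial.taylor (b : ℝ) Q := rfl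
  rw [hcomp, Polynomial.natDegree_taylor]
  refine ⟨hQd, ?_⟩
  have h1 : (Polynomial.taylor (b : ℝ) Q).coeff d = Q.coeff d := by
    rcases hQd.lt_or_eq with h | h
    · rw [Polynomial.coeff_eq_zero_of_natDegree_lt h,
        Polynomial.coeff_eq_zero_of_natDegree_lt (by rw [Polynomial.natDegree_taylor]; exact h)]
    · rw [← h, Polynomial.coeff_taylor_natDegree]
      rfl
  rw [h1, hQ, Polynomial.coeff_add, Polynomial.coeff_C_mul, Polynomial.coeff_X]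
  by_cases hd1 : 1 = d
  · exact ⟨j, by rw [if_pos hd1, mul_one]⟩
  · exact ⟨0, by rw [if_neg hd1]; simp⟩

/-- a single scale -/
private theorem single {d r l q w b N K1 : ℕ} {β : Fin r → ℤ} {δ : Fin r → ℕ} {h : Fin l → ℕ}
    {ε : ℝ} {P : Polynomial ℝ} (hFO : StatementFO) (hd : 0 < d) (hq : q = w.factorial ^ 2)
    (hε : 0 < ε)
    (hprod : ∀ n : ℕ, ∏ i ∈ Finset.univ.filter (fun i => Odd (δ i)), lz ((n : ℤ) + β i) =
      FF h 1 ((n : ℤ) - b))
    (hw : ∑ n ∈ Finset.Icc 1 N, |fm β δ n - (∏ i ∈ Finset.univ.filter (fun i => Odd (δ i)),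
        lz ((n : ℤ) + β i)) * ∏ i, sqw w ((n : ℤ) + β i)| ≤ ε / 4 * N)
    (hN : 4 * (b * q) / ε ≤ (N : ℝ)) (hP : P.natDegree ≤ d)
    (hθ : MinorD (K1 * q) N d (P.coeff d)) (hS : ε * N < ‖SmP β δ N P‖) :
    ∃ P' : Polynomial ℝ, P'.natDegree ≤ d ∧ MinorD K1 N d (P'.coeff d) ∧
      ε / (4 * q) * N < ‖SgP h N P'‖ := by
  by_contra hcon
  push Not at hcon
  have hq0 : 0 < q := by
    rw [hq]
    positivity
  have hq0' : (0 : ℝ) < q := by exact_mod_cast hq0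
  set a : ℕ → ℂ := fun n => ((FF h 1 ((n : ℤ) - b) : ℝ) : ℂ) * ee (P.eval (n : ℝ)) with ha
  set u : ℕ → ℂ := fun n => ((∏ i, sqw w ((n : ℤ) + β i) : ℝ) : ℂ) with hu
  have hu1 : ∀ n, u (n + q) = u n := by
    intro n
    simp only [hu]
    congr 1
    refine Finset.prod_congr rfl fun i _ => ?_
    apply Pool.Agent.H22.LF.sqw_congr
    rw [← hq, Int.modEq_iff_dvd]
    push_cast
    exact ⟨-1, by ring⟩
  have hu2 : ∀ n, ‖u n‖ ≤ 1 := by
    intro n
    simp only [hu, Complex.norm_real, Real.norm_eq_abs]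
    rw [Finset.abs_prod]
    exact Finset.prod_le_one (fun _ _ => abs_nonneg _) fun _ _ => Pool.Agent.H22.LF.abs_sqw_le _ _
  have h1 := hFO.1 a u q N (ε / (4 * q) * N + 2 * b) 0 hq0 hu1 hu2 (by
    intro j hj
    have e1 : ∑ n ∈ Finset.Icc 1 N, a n * ee (n * (0 + j / q)) =
        ∑ n ∈ Finset.Icc 1 N, ((FF h 1 ((n : ℤ) - b) : ℝ) : ℂ) *
          ee ((P + C ((j : ℝ) / q) * X).eval (n : ℝ)) := by
      refine Finset.sum_congr rfl fun n _ => ?_
      rw [ha]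
      simp only [Polynomial.eval_add, Polynomial.eval_mul, Polynomial.eval_C, Polynomial.eval_X]
      rw [ee_add, mul_assoc, show (n : ℝ) * (0 + (j : ℝ) / q) = (j : ℝ) / q * n by ring]
    rw [e1]
    obtain ⟨h2, j', h3⟩ := twist (b := b) (q := q) hd j P hP
    refine (shift_Sg h N b _).trans (add_le_add (hcon _ h2 ?_) le_rfl)
    rw [h3]
    exact minor_shift j' hq0 hθ)
  have h2 : ‖SmP β δ N P - ∑ n ∈ Finset.Icc 1 N, a n * u n * ee (n * 0)‖ ≤ ε / 4 * N := by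
    unfold SmP
    rw [← Finset.sum_sub_distrib]
    refine (norm_sum_le _ _).trans (le_trans (le_of_eq ?_) hw)
    refine Finset.sum_congr rfl fun n _ => ?_
    have h3 : ((fm β δ n : ℝ) : ℂ) * ee (P.eval (n : ℝ)) - a n * u n * ee (n * 0) =
        (((fm β δ n - (∏ i ∈ Finset.univ.filter (fun i => Odd (δ i)), lz ((n : ℤ) + β i)) *
          ∏ i, sqw w ((n : ℤ) + β i)) : ℝ) : ℂ) * ee (P.eval (n : ℝ)) := by
      rw [hprod n]
      simp only [ha, hu, mul_zero, ee_zero]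
      push_cast
      ring
    rw [h3, norm_mul, norm_ee, mul_one, Complex.norm_real, Real.norm_eq_abs]
  have h4 := norm_le_norm_add_norm_sub' (SmP β δ N P)
    (∑ n ∈ Finset.Icc 1 N, a n * u n * ee (n * 0))
  have h5 : (q : ℝ) * (ε / (4 * q) * N + 2 * b) = ε / 4 * N + 2 * (b * q) := by
    field_simp
  rw [h5] at h1
  rw [div_le_iff₀ hε] at hN
  linarith

open Classical in
/-- [TM] -/
theorem pf_TM (hT1 : P_T1) (hMU : StatementMU) (hFO : StatementFO) : P_TM := by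
  intro d r β δ ε ρ hd hδ hε hρ
  obtain ⟨w, N₀, hw⟩ := hMU r β δ (ε / 4) hδ (by positivity)
  obtain ⟨q, hq⟩ : ∃ q : ℕ, q = w.factorial ^ 2 := ⟨_, rfl⟩
  have hq0 : 0 < q := by
    rw [hq]
    positivity
  have hq0' : (0 : ℝ) < q := by exact_mod_cast hq0
  obtain ⟨b, hb⟩ : ∃ b : ℕ, b = ∑ i, (β i).natAbs := ⟨_, rfl⟩
  have hbi : ∀ i, 0 ≤ β i + b := by
    intro i
    have h1 : (β i).natAbs ≤ b := by
      rw [hb]
      exact Finset.single_le_sum (f := fun i => (β i).natAbs) (fun _ _ => Nat.zero_le _)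
        (Finset.mem_univ i)
    omega
  obtain ⟨l, ⟨e⟩⟩ : ∃ l : ℕ, Nonempty ({i : Fin r // Odd (δ i)} ≃ Fin l) :=
    ⟨_, ⟨Fintype.equivFin _⟩⟩
  set h : Fin l → ℕ := fun j => (β (e.symm j).1 + b).toNat with hh
  have hprod : ∀ n : ℕ, ∏ i ∈ Finset.univ.filter (fun i => Odd (δ i)), lz ((n : ℤ) + β i) =
      FF h 1 ((n : ℤ) - b) := by
    intro n
    have h0 := Pool.Agent.H22.LF.prod_odd (fun i => Odd (δ i)) e (fun i => lz ((n : ℤ) + β i))
    unfold FF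
    have h1 : ∏ i' : Fin l, lz ((n : ℤ) + β (e.symm i').1) =
        ∏ i, lz ((n : ℤ) - b + ((1 : ℕ) : ℤ) * ((h i : ℕ) : ℤ)) := by
      refine Finset.prod_congr rfl fun j _ => ?_
      congr 1
      rw [hh]
      simp only
      rw [Int.toNat_of_nonneg (hbi _)]
      push_cast
      ring
    rw [← h1, ← h0]
  obtain ⟨K1, hK1⟩ := hT1 d l h (ε / (4 * q)) (ρ / 2) hd (by positivity) (by positivity)
  obtain ⟨N₁, hN₁⟩ : ∃ N₁ : ℕ, N₁ = max N₀ ⌈4 * (b * q) / ε⌉₊ := ⟨_, rfl⟩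
  refine ⟨max (K1 * q) (⌈Real.exp (2 * N₁ / ρ)⌉₊), fun x y hx hxy => ?_⟩
  have hKq : K1 ≤ K1 * q := Nat.le_mul_of_pos_right _ hq0
  have hxy1 : K1 * x ≤ y :=
    (Nat.mul_le_mul_right x (hKq.trans (le_max_left _ _))).trans hxy
  have hx0 : (0 : ℝ) < x := by exact_mod_cast hx
  have hlog : (N₁ : ℝ) ≤ ρ / 2 * Real.log ((y : ℝ) / x) := by
    have h1 : ⌈Real.exp (2 * N₁ / ρ)⌉₊ * x ≤ y :=
      (Nat.mul_le_mul_right x (le_max_right _ _)).trans hxy
    have h2 : ((⌈Real.exp (2 * N₁ / ρ)⌉₊ : ℕ) : ℝ) * x ≤ y := by exact_mod_cast h1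
    have h3 : Real.exp (2 * N₁ / ρ) ≤ (y : ℝ) / x := by
      rw [le_div_iff₀ hx0]
      exact (mul_le_mul_of_nonneg_right (Nat.le_ceil _) hx0.le).trans h2
    have h4 : 2 * (N₁ : ℝ) / ρ ≤ Real.log ((y : ℝ) / x) := by
      rw [Real.le_log_iff_exp_le (lt_of_lt_of_le (Real.exp_pos _) h3)]
      exact h3
    rw [div_le_iff₀ hρ] at h4
    linarith
  set Bad := (Finset.Icc x y).filter (fun N : ℕ => ∃ P : Polynomial ℝ, P.natDegree ≤ d ∧
    MinorD (max (K1 * q) (⌈Real.exp (2 * N₁ / ρ)⌉₊)) N d (P.coeff d) ∧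
      ε * N < ‖SmP β δ N P‖) with hBad
  set Bad1 := (Finset.Icc x y).filter (fun N : ℕ => ∃ P : Polynomial ℝ, P.natDegree ≤ d ∧
    MinorD K1 N d (P.coeff d) ∧ ε / (4 * q) * N < ‖SgP h N P‖) with hBad1
  have hsub : Bad ⊆ Finset.Ico 1 (N₁ + 1) ∪ Bad1 := by
    intro N hN
    rw [hBad, Finset.mem_filter, Finset.mem_Icc] at hN
    obtain ⟨⟨hxN, hNy⟩, P, hP, hθ, hS⟩ := hN
    rw [Finset.mem_union, Finset.mem_Ico]
    by_cases hNN : N < N₁ + 1
    · exact Or.inl ⟨by omega, hNN⟩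
    · right
      rw [not_lt] at hNN
      rw [hBad1, Finset.mem_filter, Finset.mem_Icc]
      refine ⟨⟨hxN, hNy⟩, ?_⟩
      have hN0 : N₀ ≤ N := by
        have := le_max_left N₀ ⌈4 * (b * q) / ε⌉₊
        omega
      have hN2 : 4 * (b * q) / ε ≤ (N : ℝ) := by
        have h1 : ⌈4 * (b * q) / ε⌉₊ ≤ N := by
          have := le_max_right N₀ ⌈4 * (b * q) / ε⌉₊
          omega
        exact (Nat.le_ceil _).trans (by exact_mod_cast h1)
      exact single hFO hd hq hε hprod (hw N hN0) hN2 hP (minor_mono (le_max_left _ _) hθ) hS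
  have h1 : ∑ N ∈ Bad, (1 / (N : ℝ)) ≤
      ∑ N ∈ Finset.Ico 1 (N₁ + 1), (1 / (N : ℝ)) + ∑ N ∈ Bad1, (1 / (N : ℝ)) := by
    refine (Finset.sum_le_sum_of_subset_of_nonneg hsub fun _ _ _ => by positivity).trans ?_
    rw [← Finset.sum_union_inter]
    exact le_add_of_nonneg_right (Finset.sum_nonneg fun _ _ => by positivity)
  have h2 : ∑ N ∈ Finset.Ico 1 (N₁ + 1), (1 / (N : ℝ)) ≤ N₁ := by
    have h3 : ∑ N ∈ Finset.Ico 1 (N₁ + 1), (1 / (N : ℝ)) ≤
        ∑ N ∈ Finset.Ico 1 (N₁ + 1), (1 : ℝ) := by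
      refine Finset.sum_le_sum fun N hN => ?_
      rw [Finset.mem_Ico] at hN
      have h4 : (1 : ℝ) ≤ N := by exact_mod_cast hN.1
      rw [div_le_one (by linarith)]
      exact h4
    simpa using h3
  have h3 := hK1 x y hx hxy1
  calc ∑ N ∈ Bad, (1 / (N : ℝ)) ≤ N₁ + ρ / 2 * Real.log ((y : ℝ) / x) :=
        h1.trans (add_le_add h2 h3)
    _ ≤ ρ * Real.log ((y : ℝ) / x) := by linarith

end Pool.Agent.H94.DPD
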